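/-
Project FRX (MP_79b960_co), packet CUTC.
-/
import Pool.Agent.Helper38.FRX.Goals

set_option autoImplicit false

namespace Pool.Agent.Helper46.FRX

open Finset Pool.Agent.Helper55.FR Pool.Agent.Helper38.FRX

theorem cutc_spc : ∀ a b : Lab, b ≠ Pool.Agent.Helper55.FR.flip a → spc a b := by
  decide

theorem cutc_flip : ∀ a b : Lab, b ≠ Pool.Agent.Helper55.FR.flip a →
    a ≠ Pool.Agent.Helper55.FR.flip b := by
  decide

theorem cutc : CutcStmt := by
  intro V _ _ n m E L κ par dep hm hE hP P f
  have hsub : Ct κ par P f ⊆ (Spc n f).image n ∪ Spc n f ∪ (E ∩ VM m f) := by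
    intro x hx
    obtain ⟨-, hκ, hf⟩ := (mem_filter.1 hx).2
    have hr := hP.rp x hκ
    simp only [mem_union]
    rcases hr with h | h | ⟨h, hpE⟩
    · left; left
      refine mem_image.2 ⟨par x, mem_filter.2 ⟨mem_univ _, ?_⟩, h.symm⟩
      rw [← h]
      exact cutc_spc _ _ hf
    · left; right
      refine mem_filter.2 ⟨mem_univ _, ?_⟩
      rw [← h]
      exact cutc_spc _ _ (cutc_flip _ _ hf)
    · right
      have hmx : m x = par x := (congrArg m h).trans (hm _)
      refine mem_inter.2 ⟨(hE x).2 (by rw [hmx]; exact hpE), mem_filter.2 ⟨mem_univ _, ?_⟩⟩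
      rw [hmx]
      exact cutc_flip _ _ hf
  have h1 := card_le_card hsub
  have h2 := card_union_le ((Spc n f).image n ∪ Spc n f) (E ∩ VM m f)
  have h3 := card_union_le ((Spc n f).image n) (Spc n f)
  have h4 := card_image_le (s := Spc n f) (f := n)
  omega

end Pool.Agent.Helper46.FRX
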