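/-
Project FRX (MP_79b960_co), packet VMB.
-/
import Pool.Agent.Helper38.FRX.Goals

set_option autoImplicit false

namespace Pool.Agent.Helper46.FRX

open Finset Pool.Agent.Helper55.FR Pool.Agent.Helper38.FRX


theorem vmb_lab : ∀ a b : Lab, b ≠ Pool.Agent.Helper55.FR.flip a →
    bad a b ∨ (a = Lab.T ∧ b = Lab.T) ∨ (isK a ∧ ¬ isK b) ∨ (isK b ∧ ¬ isK a) ∨
      (a ≠ Lab.O ∧ b = Lab.O) ∨ (b ≠ Lab.O ∧ a = Lab.O) := by
  decide

theorem vmb : VmbStmt := by
  intro V _ _ m f hm
  have hmem : ∀ (A : Finset V) (x : V), m x ∈ A → x ∈ A.image m := fun A x hx =>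
    mem_image.2 ⟨m x, hx, hm x⟩
  have hsub : VM m f ⊆ Bad m f ∪ TT m f ∪ (MK m f ∪ (MK m f).image m) ∪
      ((univ.filter fun x => f x ≠ Lab.O ∧ f (m x) = Lab.O) ∪
        (univ.filter fun x => f x ≠ Lab.O ∧ f (m x) = Lab.O).image m) := by
    intro x hx
    have hx' : f (m x) ≠ Pool.Agent.Helper55.FR.flip (f x) := (mem_filter.1 hx).2
    rcases vmb_lab _ _ hx' with h | h | h | h | h | h
    · have : x ∈ Bad m f := mem_filter.2 ⟨mem_univ _, h⟩
      simp [this]
    · have : x ∈ TT m f := mem_filter.2 ⟨mem_univ _, h⟩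
      simp [this]
    · have : x ∈ MK m f := mem_filter.2 ⟨mem_univ _, h⟩
      simp only [mem_union]
      exact Or.inl (Or.inr (Or.inl this))
    · have : m x ∈ MK m f := mem_filter.2 ⟨mem_univ _, by rw [hm x]; exact h⟩
      simp only [mem_union]
      exact Or.inl (Or.inr (Or.inr (hmem _ _ this)))
    · have : x ∈ univ.filter fun x => f x ≠ Lab.O ∧ f (m x) = Lab.O :=
        mem_filter.2 ⟨mem_univ _, h⟩
      simp only [mem_union]
      exact Or.inr (Or.inl this)
    · have : m x ∈ univ.filter fun x => f x ≠ Lab.O ∧ f (m x) = Lab.O :=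
        mem_filter.2 ⟨mem_univ _, by rw [hm x]; exact h⟩
      simp only [mem_union]
      exact Or.inr (Or.inr (hmem _ _ this))
  have h1 := card_le_card hsub
  have h2 := card_union_le (Bad m f ∪ TT m f ∪ (MK m f ∪ (MK m f).image m))
    ((univ.filter fun x => f x ≠ Lab.O ∧ f (m x) = Lab.O) ∪
        (univ.filter fun x => f x ≠ Lab.O ∧ f (m x) = Lab.O).image m)
  have h3 := card_union_le (Bad m f ∪ TT m f) (MK m f ∪ (MK m f).image m)
  have h4 := card_union_le (Bad m f) (TT m f)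
  have h5 := card_union_le (MK m f) ((MK m f).image m)
  have h6 := card_union_le (univ.filter fun x => f x ≠ Lab.O ∧ f (m x) = Lab.O)
        ((univ.filter fun x => f x ≠ Lab.O ∧ f (m x) = Lab.O).image m)
  have h7 := card_image_le (s := MK m f) (f := m)
  have h8 := card_image_le (s := univ.filter fun x => f x ≠ Lab.O ∧ f (m x) = Lab.O) (f := m)
  omega

end Pool.Agent.Helper46.FRX
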